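import Pool.Agent.L0h98.KC.Def
import Pool.Agent.N404.KL.Rat

set_option autoImplicit false

/-!
# Project KC: the first moment for a balanced word
-/

namespace Pool.Agent.L0h37.KC

open Finset Classical
open Pool.Agent.N404.LF (cnt)
open Pool.Agent.N404.KL (sg tent tent_nonneg tent_neg sg_not)
open Pool.Agent.L0h98.KC

/-- Words and rows. -/
lemma sum_rows (h : S_FUB) {S R T : Type} [Fintype S] [Fintype R] [Fintype T]
    {X : S → Type} [∀ s, Fintype (X s)] [i1 : Fintype (∀ s, X s → T)] (a : ∀ s, X s → R)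
    [i2 : ∀ r, Fintype ({q : Σ s, X s // a q.1 q.2 = r} → T)]
    (W : ∀ r, ({q : Σ s, X s // a q.1 q.2 = r} → T) → ℝ) :
    ∑ w : ∀ s, X s → T, ∏ r, W r (fun q => w q.1.1 q.1.2) =
      ∏ r, ∑ u : {q : Σ s, X s // a q.1 q.2 = r} → T, W r u := by
  have key := h (Σ s, X s) R T (fun q => a q.1 q.2) W
  have e1 : ∑ w : ∀ s, X s → T, ∏ r, W r (fun q => w q.1.1 q.1.2) =
      ∑ w : (Σ s, X s) → T, ∏ r, W r (fun q => w q.1) := by
    refine (Fintype.sum_equiv (Equiv.piCurry (fun s (_ : X s) => T))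
      (fun w : (Σ s, X s) → T => ∏ r, W r (fun q => w q.1))
      (fun w : ∀ s, X s → T => ∏ r, W r (fun q => w q.1.1 q.1.2)) fun w => ?_).symm
    rfl
  rw [e1]
  refine Eq.trans ?_ (key.trans ?_)
  · exact Finset.sum_equiv (Equiv.refl _) (fun _ => by simp) (fun u _ => rfl)
  · refine Finset.prod_congr rfl fun r _ => ?_
    exact Finset.sum_equiv (Equiv.refl _) (fun _ => by simp) (fun u _ => rfl)

/-- The slots of the row `i` and of the row `(i, β)`. -/
def rowEquiv {S I : Type} (M : S → ℕ) (al : ∀ s, Fin (M s) → I) (i : I) (β : Bool) :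
    {q : Σ s, Fin (M s) // al q.1 q.2 = i} ≃
      {q : Σ s, Fin (M s) × Bool // (al q.1 q.2.1, q.2.2) = (i, β)} where
  toFun q := ⟨⟨q.1.1, (q.1.2, β)⟩, by
    show (al q.1.1 q.1.2, β) = (i, β)
    rw [q.2]⟩
  invFun q := ⟨⟨q.1.1, q.1.2.1⟩, (Prod.ext_iff.1 q.2).1⟩
  left_inv q := rfl
  right_inv := by
    rintro ⟨⟨s, l, b⟩, hq⟩
    have : b = β := (Prod.ext_iff.1 hq).2
    subst this
    rfl

section
variable {S I : Type} [Fintype S] [DecidableEq S] [Fintype I] (M : S → ℕ)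
  (al : ∀ s, Fin (M s) → I) (val : S → ℝ)

lemma rs_pair (w : ∀ s, Fin (M s) × Bool → Bool) (i : I) (β : Bool) :
    rs val (fun s (p : Fin (M s) × Bool) => (al s p.1, p.2)) w (i, β) =
      rs val al (fun s l => w s (l, β)) i := by
  unfold rs
  symm
  exact Finset.sum_equiv (rowEquiv M al i β) (fun q => by simp) (fun q _ => rfl)

lemma tr_pair (i : I) (β : Bool) :
    tr val (fun s (p : Fin (M s) × Bool) => (al s p.1, p.2)) (i, β) = tr val al i := by
  unfold tr
  symm
  refine Finset.sum_equiv ((rowEquiv M al i β).arrowCongr (Equiv.refl Bool)) (fun e => by simp)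
    fun e _ => ?_
  congr 1
  refine Finset.sum_equiv (rowEquiv M al i β) (fun q => by simp) fun q _ => ?_
  show _ = val q.1.1 * sg (e ((rowEquiv M al i β).symm (rowEquiv M al i β q)))
  rw [Equiv.symm_apply_apply]

lemma rs_neg {X : S → Type} [∀ s, Fintype (X s)] {R : Type} (a : ∀ s, X s → R)
    (z : ∀ s, X s → Bool) (r : R) : rs val a (fun s p => !(z s p)) r = - rs val a z r := by
  unfold rs
  rw [← Finset.sum_neg_distrib]
  refine Finset.sum_congr rfl fun q _ => ?_
  rw [sg_not]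
  ring

end

theorem t_LOR (h1 : S_WLO) (h2 : S_BLO) (h3 : S_FUB) : S_LOR := by
  intro S I _ _ _ M al val x hx
  set F : (∀ s, Fin (M s) → Bool) → ℝ := fun u => ∏ i, tent 300 (rs val al u i) with hF
  have hF0 : ∀ u, 0 ≤ F u := fun u => Finset.prod_nonneg fun i _ => tent_nonneg _ _
  have hFe : ∀ u, F (fun s l => !(u s l)) = F u := by
    intro u
    rw [hF]
    refine Finset.prod_congr rfl fun i _ => ?_
    rw [rs_neg, tent_neg]
  set a : ∀ s, Fin (M s) × Bool → I × Bool := fun s p => (al s p.1, p.2) with ha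
  set Ψ : (∀ s, Fin (M s) × Bool → Bool) → ℝ := fun w => ∏ r, tent 300 (rs val a w r) with hΨ
  have hΨ0 : ∀ w, 0 ≤ Ψ w := fun w => Finset.prod_nonneg fun i _ => tent_nonneg _ _
  have hΨF : ∀ w, Ψ w = F (fun s l => w s (l, false)) * F (fun s l => w s (l, true)) := by
    intro w
    rw [hΨ, hF]
    dsimp only
    rw [← Finset.univ_product_univ, Finset.prod_product, ← Finset.prod_mul_distrib]
    refine Finset.prod_congr rfl fun i _ => ?_
    rw [Fintype.prod_bool, rs_pair, rs_pair, mul_comm]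
  have e1 : ∏ r, tr val a r = (∑ u, F u) ^ 2 := by
    have e2 : ∑ u, F u = ∏ i, tr val al i := by
      have k := sum_rows h3 al (fun i (e : {q : Σ s, Fin (M s) // al q.1 q.2 = i} → Bool) =>
        tent 300 (∑ q, val q.1.1 * sg (e q)))
      refine Eq.trans ?_ (k.trans ?_)
      · exact Finset.sum_equiv (Equiv.refl _) (fun _ => by simp) (fun u _ => rfl)
      · refine Finset.prod_congr rfl fun i _ => ?_
        unfold tr
        exact Finset.sum_equiv (Equiv.refl _) (fun _ => by simp) (fun e _ => rfl)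
    rw [e2, ← Finset.univ_product_univ, Finset.prod_product, sq, ← Finset.prod_mul_distrib]
    refine Finset.prod_congr rfl fun i _ => ?_
    rw [Fintype.prod_bool, tr_pair, tr_pair]
  have k1 := h1 S M x Ψ hΨ0 hx
  have k2 := h2 S M F hF0 hFe
  rw [← e1, ← Finset.sum_congr rfl fun w _ => hΨF w] at k2
  rw [Finset.prod_mul_distrib]
  have p1 : (0 : ℝ) ≤ ∏ s, ((2 * M s).factorial : ℝ) :=
    Finset.prod_nonneg fun s _ => Nat.cast_nonneg _
  have p2 : (0 : ℝ) ≤ ∏ s, ((M s : ℝ) + 1) := Finset.prod_nonneg fun s _ => by positivity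
  calc (∏ s, ((2 * M s).factorial : ℝ)) * ∏ r, tr val a r
      ≤ (∏ s, ((2 * M s).factorial : ℝ)) * ((∏ s, ((M s : ℝ) + 1)) *
        ∑ w ∈ univ.filter (fun w : ∀ s, Fin (M s) × Bool → Bool => ∀ s, cnt (w s) true = M s),
          Ψ w) := mul_le_mul_of_nonneg_left k2 p1
    _ = (∏ s, ((M s : ℝ) + 1)) * ((∏ s, ((2 * M s).factorial : ℝ)) *
        ∑ w ∈ univ.filter (fun w : ∀ s, Fin (M s) × Bool → Bool => ∀ s, cnt (w s) true = M s),
          Ψ w) := by ring
    _ ≤ (∏ s, ((M s : ℝ) + 1)) * ((∏ s, (4 : ℝ) ^ M s) *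
      ∑ π : Cf (fun s => Fin (M s) × Bool), Ψ (fun s p => x s (π s p))) :=
        mul_le_mul_of_nonneg_left k1 p2
    _ = _ := by ring

end Pool.Agent.L0h37.KC
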