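import Pool.Agent.L0h37.KC.LOR

set_option autoImplicit false

/-!
# Project KC: the second moment for a pair of balanced words
-/

namespace Pool.Agent.L0h37.KC

open Finset Classical
open Pool.Agent.N404.LF (cnt)
open Pool.Agent.N404.KL (sg tent tent_nonneg tent_neg sg_not abs_sg S_RAT)
open Pool.Agent.L0h98.KC

section
variable {X : Type} [Fintype X]

/-- the overlap -/
noncomputable def ovl (x y : X → Bool) : ℝ := (∑ p, sg (x p) * sg (y p)) / Fintype.card X

lemma abs_ovl (x y : X → Bool) : |ovl x y| ≤ 1 := by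
  unfold ovl
  have hNN : |(Fintype.card X : ℝ)| = Fintype.card X := abs_of_nonneg (Nat.cast_nonneg _)
  rw [abs_div, hNN]
  rcases Nat.eq_zero_or_pos (Fintype.card X) with h | h
  · rw [h]; simp
  rw [div_le_one (by exact_mod_cast h)]
  calc |∑ a, sg (x a) * sg (y a)| ≤ ∑ a, |sg (x a) * sg (y a)| := Finset.abs_sum_le_sum_abs _ _
    _ = ∑ _a : X, (1 : ℝ) :=
        Finset.sum_congr rfl fun a _ => by rw [abs_mul, abs_sg, abs_sg, one_mul]
    _ = Fintype.card X := by simp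

lemma sum_bal (z : X → Bool) (hz : 2 * cnt z true = Fintype.card X) : ∑ a, sg (z a) = 0 := by
  have h1 : ∀ a, sg (z a) = 2 * (if z a = true then (1 : ℝ) else 0) - 1 := by
    intro a; cases z a <;> simp [sg] ; norm_num
  rw [Finset.sum_congr rfl (fun a _ => h1 a), Finset.sum_sub_distrib, ← Finset.mul_sum]
  have h2 : ∑ a, (if z a = true then (1 : ℝ) else 0) = cnt z true := by
    unfold cnt
    rw [Finset.card_filter]
    push_cast
    rfl
  rw [h2]
  simp only [Finset.sum_const, card_univ, nsmul_eq_mul, mul_one]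
  have : ((2 * cnt z true : ℕ) : ℝ) = Fintype.card X := by rw [hz]
  push_cast at this
  linarith

lemma cnt_pair (x y : X → Bool) (hx : 2 * cnt x true = Fintype.card X)
    (hy : 2 * cnt y true = Fintype.card X) (hX : 0 < Fintype.card X) (b : Bool × Bool) :
    (cnt (fun a => (x a, y a)) b : ℝ) / Fintype.card X =
      1 / 4 * (1 + ovl x y * sg b.1 * sg b.2) := by
  obtain ⟨b, b'⟩ := b
  have hNpos : (0 : ℝ) < Fintype.card X := by exact_mod_cast hX
  have ind' : ∀ u v c c' : Bool, (if (u, v) = (c, c') then (1 : ℝ) else 0) =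
      (1 + sg c * sg u + sg c' * sg v + sg c * sg c' * (sg u * sg v)) / 4 := by
    intro u v c c'
    cases u <;> cases v <;> cases c <;> cases c' <;> norm_num [sg]
  have ind : ∀ a, (if ((fun a => (x a, y a)) a) = (b, b') then (1 : ℝ) else 0) =
      (1 + sg b * sg (x a) + sg b' * sg (y a) + sg b * sg b' * (sg (x a) * sg (y a))) / 4 := by
    intro a
    rw [← ind' (x a) (y a) b b']
  have hcnt : (cnt (fun a => (x a, y a)) (b, b') : ℝ) =
      ∑ a, (1 + sg b * sg (x a) + sg b' * sg (y a) + sg b * sg b' * (sg (x a) * sg (y a))) / 4 := by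
    unfold cnt
    rw [Finset.card_filter]
    push_cast
    exact Finset.sum_congr rfl fun a _ => ind a
  unfold ovl
  rw [hcnt, ← Finset.sum_div, Finset.sum_add_distrib, Finset.sum_add_distrib,
    Finset.sum_add_distrib, ← Finset.mul_sum, ← Finset.mul_sum, ← Finset.mul_sum, sum_bal x hx,
    sum_bal y hy]
  simp only [Finset.sum_const, card_univ, nsmul_eq_mul, mul_one, mul_zero, add_zero]
  field_simp

end

lemma prod_rows {S R : Type} [Fintype S] [Fintype R] {X : S → Type} [∀ s, Fintype (X s)]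
    (a : ∀ s, X s → R) (g : (Σ s, X s) → ℝ) :
    ∏ s, ∏ p : X s, g ⟨s, p⟩ = ∏ r, ∏ q : {q : Σ s, X s // a q.1 q.2 = r}, g q.1 := by
  rw [Fintype.prod_fiberwise (fun q : Σ s, X s => a q.1 q.2) g, Fintype.prod_sigma]

lemma sum_rows' {S R : Type} [Fintype S] [Fintype R] {X : S → Type} [∀ s, Fintype (X s)]
    (a : ∀ s, X s → R) (g : (Σ s, X s) → ℝ) :
    ∑ r, ∑ q : {q : Σ s, X s // a q.1 q.2 = r}, g q.1 = ∑ s, ∑ p : X s, g ⟨s, p⟩ := by
  rw [Fintype.sum_fiberwise (fun q : Σ s, X s => a q.1 q.2) g, Fintype.sum_sigma]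

/-- one row -/
lemma row_rat (h3 : S_RAT) {J : Type} [Fintype J] (α ρ : J → ℝ) (hα : ∀ j, |α j| ≤ 1)
    (hρ : ∀ j, |ρ j| ≤ 1) :
    ∑ u : J → Bool × Bool, (∏ q, (1 + ρ q * sg (u q).1 * sg (u q).2)) *
      (tent 300 (∑ q, α q * sg (u q).1) * tent 300 (∑ q, α q * sg (u q).2)) ≤
    (∑ e : J → Bool, tent 300 (∑ k, α k * sg (e k))) ^ 2 *
      Real.exp (1 / 2 * ∑ j, α j ^ 2 * ρ j ^ 2) := by
  refine le_trans (le_of_eq ?_) (h3 J α ρ hα hρ).2
  rw [← Equiv.sum_comp (Equiv.arrowProdEquivProdArrow J (fun _ => Bool)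
      (fun _ => Bool)).symm, Fintype.sum_prod_type]
  refine Finset.sum_congr rfl fun e _ => Finset.sum_congr rfl fun e' _ => ?_
  rw [mul_comm]
  rfl

theorem t_UPR (h1 : S_WUP) (h2 : S_FUB) (h3 : S_RAT) : S_UPR := by
  intro S R _ _ _ X _ _ a val x y hval hx hy
  set ρ : S → ℝ := fun s => ovl (x s) (y s) with hρd
  have hρ : ∀ s, |ρ s| ≤ 1 := fun s => abs_ovl _ _
  set Ψ : (∀ s, X s → Bool × Bool) → ℝ := fun w =>
    ∏ r, (tent 300 (rs val a (fun s p => (w s p).1) r) *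
      tent 300 (rs val a (fun s p => (w s p).2) r)) with hΨ
  have hΨ0 : ∀ w, 0 ≤ Ψ w := fun w => Finset.prod_nonneg fun r _ =>
    mul_nonneg (tent_nonneg _ _) (tent_nonneg _ _)
  have k1 := h1 S (Bool × Bool) X (fun s p => (x s p, y s p)) Ψ hΨ0
  have hcard : Fintype.card (Bool × Bool) = 4 := rfl
  rw [hcard] at k1
  -- the weight of a row
  set Z : R → ℝ := fun r => ∑ u : {q : Σ s, X s // a q.1 q.2 = r} → Bool × Bool,
    (∏ q, (1 + ρ q.1.1 * sg (u q).1 * sg (u q).2)) *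
      (tent 300 (∑ q, val q.1.1 * sg (u q).1) * tent 300 (∑ q, val q.1.1 * sg (u q).2)) with hZ
  have k2 : ∑ w : ∀ s, X s → Bool × Bool,
      (∏ s, ∏ p, ((cnt (fun p => (x s p, y s p)) (w s p) : ℝ) / Fintype.card (X s))) * Ψ w =
      (∏ s, (1 / 4 : ℝ) ^ Fintype.card (X s)) * ∏ r, Z r := by
    have k := sum_rows h2 a (fun r (u : {q : Σ s, X s // a q.1 q.2 = r} → Bool × Bool) =>
      (∏ q, (1 + ρ q.1.1 * sg (u q).1 * sg (u q).2)) *
        (tent 300 (∑ q, val q.1.1 * sg (u q).1) * tent 300 (∑ q, val q.1.1 * sg (u q).2)))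
    have k' : ∏ r, Z r = ∑ w : ∀ s, X s → Bool × Bool, ∏ r,
        ((∏ q : {q : Σ s, X s // a q.1 q.2 = r},
          (1 + ρ q.1.1 * sg (w q.1.1 q.1.2).1 * sg (w q.1.1 q.1.2).2)) *
        (tent 300 (∑ q : {q : Σ s, X s // a q.1 q.2 = r}, val q.1.1 * sg (w q.1.1 q.1.2).1) *
          tent 300 (∑ q : {q : Σ s, X s // a q.1 q.2 = r}, val q.1.1 * sg (w q.1.1 q.1.2).2))) := by
      refine Eq.trans ?_ (k.symm.trans ?_)
      · refine Finset.prod_congr rfl fun r _ => ?_
        exact Finset.sum_equiv (Equiv.refl _) (fun _ => by simp) (fun e _ => rfl)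
      · exact Finset.sum_equiv (Equiv.refl _) (fun _ => by simp) (fun u _ => rfl)
    rw [k', Finset.mul_sum]
    refine Finset.sum_congr rfl fun w _ => ?_
    rw [Finset.prod_mul_distrib, ← mul_assoc]
    congr 1
    rw [← prod_rows a (fun q => 1 + ρ q.1 * sg (w q.1 q.2).1 * sg (w q.1 q.2).2),
      ← Finset.prod_mul_distrib]
    refine Finset.prod_congr rfl fun s _ => ?_
    rw [← Finset.card_univ (α := X s), ← Finset.prod_const, ← Finset.prod_mul_distrib]
    refine Finset.prod_congr rfl fun p _ => ?_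
    rw [Finset.card_univ]
    exact cnt_pair (x s) (y s) (hx s) (hy s) (Fintype.card_pos_iff.2 ⟨p⟩) (w s p)
  have k3 : ∀ r, Z r ≤ (tr val a r) ^ 2 * Real.exp (1 / 2 *
      ∑ q : {q : Σ s, X s // a q.1 q.2 = r}, val q.1.1 ^ 2 * ρ q.1.1 ^ 2) := by
    intro r
    have k := row_rat h3 (J := {q : Σ s, X s // a q.1 q.2 = r}) (fun q => val q.1.1)
      (fun q => ρ q.1.1) (fun q => hval _) (fun q => hρ _)
    refine (le_of_eq ?_).trans (k.trans (le_of_eq ?_))
    · exact Finset.sum_equiv (Equiv.refl _) (fun _ => by simp) (fun e _ => rfl)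
    · congr 2
      unfold tr
      exact Finset.sum_equiv (Equiv.refl _) (fun _ => by simp) (fun e _ => rfl)
  have hZ0 : ∀ r, 0 ≤ Z r := by
    intro r
    refine Finset.sum_nonneg fun u _ => mul_nonneg (Finset.prod_nonneg fun q _ => ?_)
      (mul_nonneg (tent_nonneg _ _) (tent_nonneg _ _))
    have h5 : |ρ q.1.1 * sg (u q).1 * sg (u q).2| ≤ 1 := by
      rw [abs_mul, abs_mul, abs_sg, abs_sg, mul_one, mul_one]
      exact hρ _
    linarith [(abs_le.1 h5).1]
  have k4 : ∏ r, Z r ≤ (∏ r, tr val a r) ^ 2 *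
      Real.exp (1 / 2 * ∑ s, val s ^ 2 * ((∑ p, sg (x s p) * sg (y s p)) ^ 2 /
        Fintype.card (X s))) := by
    refine (Finset.prod_le_prod (fun r _ => hZ0 r) fun r _ => k3 r).trans (le_of_eq ?_)
    rw [Finset.prod_mul_distrib, Finset.prod_pow, ← Real.exp_sum, ← Finset.mul_sum,
      sum_rows' a (fun q => val q.1 ^ 2 * ρ q.1 ^ 2)]
    congr 3
    refine Finset.sum_congr rfl fun s _ => ?_
    show ∑ _p : X s, val s ^ 2 * ρ s ^ 2 = _
    rw [Finset.sum_const, Finset.card_univ, nsmul_eq_mul, hρd]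
    dsimp only
    unfold ovl
    rcases Nat.eq_zero_or_pos (Fintype.card (X s)) with h | h
    · rw [h]; simp
    · have h5 : (0 : ℝ) < Fintype.card (X s) := by exact_mod_cast h
      field_simp
  have hP : (0 : ℝ) ≤ ∏ s, (((Fintype.card (X s)).factorial : ℝ) *
      (3 * ((Fintype.card (X s) : ℝ) + 1)) ^ 4) := Finset.prod_nonneg fun s _ => by positivity
  have hQ : (0 : ℝ) ≤ ∏ s, (1 / 4 : ℝ) ^ Fintype.card (X s) :=
    Finset.prod_nonneg fun s _ => by positivity
  calc ∑ π : Cf X, ∏ r, (tent 300 (rs val a (fun s p => x s (π s p)) r) *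
      tent 300 (rs val a (fun s p => y s (π s p)) r))
      ≤ (∏ s, (((Fintype.card (X s)).factorial : ℝ) *
      (3 * ((Fintype.card (X s) : ℝ) + 1)) ^ 4)) * ((∏ s, (1 / 4 : ℝ) ^ Fintype.card (X s)) *
        ∏ r, Z r) := by rw [← k2]; exact k1
    _ ≤ (∏ s, (((Fintype.card (X s)).factorial : ℝ) *
      (3 * ((Fintype.card (X s) : ℝ) + 1)) ^ 4)) * ((∏ s, (1 / 4 : ℝ) ^ Fintype.card (X s)) *
        ((∏ r, tr val a r) ^ 2 *
      Real.exp (1 / 2 * ∑ s, val s ^ 2 * ((∑ p, sg (x s p) * sg (y s p)) ^ 2 /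
        Fintype.card (X s))))) :=
        mul_le_mul_of_nonneg_left (mul_le_mul_of_nonneg_left k4 hQ) hP
    _ = _ := by
      rw [Finset.prod_mul_distrib (f := fun s => ((Fintype.card (X s)).factorial : ℝ) *
        (3 * ((Fintype.card (X s) : ℝ) + 1)) ^ 4)]
      ring

end Pool.Agent.L0h37.KC
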