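import Pool.Agent.L0h37.KC.WUP

set_option autoImplicit false

/-!
# Project KC: lower bound for sums over configurations by sums over balanced words
-/

namespace Pool.Agent.L0h37.KC

open Finset Classical
open Pool.Agent.N404.LF (cnt S_FACT proof_FACT)
open Pool.Agent.N404.KL (sg tent)
open Pool.Agent.L0h98.KC

lemma exists_match {X : Type} [Fintype X] {ι : Type} (F F' : X → ι)
    (h : ∀ i, cnt F i = cnt F' i) : ∃ r : Equiv.Perm X, ∀ x, F (r x) = F' x := by
  have h1 : ∀ i, Nonempty ({x // F' x = i} ≃ {x // F x = i}) := by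
    intro i
    refine ⟨Fintype.equivOfCardEq ?_⟩
    rw [Fintype.card_subtype, Fintype.card_subtype]
    exact (h i).symm
  exact ⟨Equiv.ofFiberEquiv (fun i => (h1 i).some), fun x => Equiv.ofFiberEquiv_map _ x⟩

lemma cnt_bool {X : Type} [Fintype X] (F : X → Bool) :
    cnt F true + cnt F false = Fintype.card X := by
  have h := cnt_sum F
  rw [Fintype.sum_bool] at h
  exact h

lemma fact_le (M : ℕ) : ((2 * M).factorial : ℝ) ≤ 4 ^ M * (M.factorial * M.factorial) := by
  have h1 := Nat.choose_mul_factorial_mul_factorial (n := 2 * M) (k := M) (by omega)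
  have h2 : 2 * M - M = M := by omega
  rw [h2] at h1
  have h3 : (2 * M).choose M ≤ 2 ^ (2 * M) := Nat.choose_le_two_pow _ _
  have h4 : (2 * M).factorial ≤ 2 ^ (2 * M) * (M.factorial * M.factorial) := by
    rw [← h1, mul_assoc]
    exact Nat.mul_le_mul_right _ h3
  have h5 : (2 : ℕ) ^ (2 * M) = 4 ^ M := by
    rw [pow_mul]
    norm_num
  rw [h5] at h4
  exact_mod_cast h4

theorem t_WLO : S_WLO := by
  intro S _ _ M f Ψ hΨ hf
  have hcard : ∀ s, Fintype.card (Fin (M s) × Bool) = 2 * M s := by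
    intro s
    rw [Fintype.card_prod, Fintype.card_fin, Fintype.card_bool, mul_comm]
  have hM : ∀ w ∈ univ.filter (fun w : ∀ s, Fin (M s) × Bool → Bool => ∀ s, cnt (w s) true = M s),
      (∏ s, (((M s).factorial : ℝ) * (M s).factorial)) =
      ∏ s, (nm (f s) (w s) : ℝ) := by
    intro w hw
    have hw' := (mem_filter.1 hw).2
    refine Finset.prod_congr rfl fun s _ => ?_
    have h5 := cnt_bool (f s)
    have h6 := cnt_bool (w s)
    have h7 := hf s
    have h8 := hw' s
    have h9 := hcard s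
    rw [nm_eq, count_match (f s) (w s) (exists_match _ _ ?_), Fintype.prod_bool, h7]
    · have : cnt (f s) false = M s := by omega
      rw [this]
      push_cast
      rfl
    · intro i
      cases i
      · omega
      · omega
  have h1 : (∏ s, (((M s).factorial : ℝ) * (M s).factorial)) *
      ∑ w ∈ univ.filter (fun w : ∀ s, Fin (M s) × Bool → Bool => ∀ s, cnt (w s) true = M s), Ψ w ≤
      ∑ π : Cf (fun s => Fin (M s) × Bool), Ψ (fun s p => f s (π s p)) := by
    have e := sum_group (X := fun s => Fin (M s) × Bool) f Ψ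
    rw [e, Finset.mul_sum]
    have e2 : ∀ w ∈ univ.filter (fun w : ∀ s, Fin (M s) × Bool → Bool =>
        ∀ s, cnt (w s) true = M s), (∏ s, (((M s).factorial : ℝ) * (M s).factorial)) * Ψ w =
        (∏ s, (nm (f s) (w s) : ℝ)) * Ψ w := fun w hw => congrArg (· * Ψ w) (hM w hw)
    refine (Finset.sum_congr rfl e2).trans_le ?_
    refine Finset.sum_le_sum_of_subset_of_nonneg (subset_univ _) fun w _ _ => ?_
    exact mul_nonneg (Finset.prod_nonneg fun s _ => Nat.cast_nonneg _) (hΨ w)
  have h2 : (∏ s, ((2 * M s).factorial : ℝ)) ≤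
      (∏ s, (4 : ℝ) ^ M s) * ∏ s, (((M s).factorial : ℝ) * (M s).factorial) := by
    rw [← Finset.prod_mul_distrib]
    exact Finset.prod_le_prod (fun s _ => Nat.cast_nonneg _) fun s _ => fact_le (M s)
  have h3 : 0 ≤ ∑ w ∈ univ.filter (fun w : ∀ s, Fin (M s) × Bool → Bool =>
      ∀ s, cnt (w s) true = M s), Ψ w := Finset.sum_nonneg fun w _ => hΨ w
  have h4 : (0 : ℝ) ≤ ∏ s, (4 : ℝ) ^ M s := Finset.prod_nonneg fun s _ => by positivity
  calc _ ≤ ((∏ s, (4 : ℝ) ^ M s) * ∏ s, (((M s).factorial : ℝ) * (M s).factorial)) *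
        ∑ w ∈ univ.filter (fun w : ∀ s, Fin (M s) × Bool → Bool =>
          ∀ s, cnt (w s) true = M s), Ψ w := mul_le_mul_of_nonneg_right h2 h3
    _ = (∏ s, (4 : ℝ) ^ M s) * ((∏ s, (((M s).factorial : ℝ) * (M s).factorial)) *
        ∑ w ∈ univ.filter (fun w : ∀ s, Fin (M s) × Bool → Bool =>
          ∀ s, cnt (w s) true = M s), Ψ w) := by ring
    _ ≤ _ := mul_le_mul_of_nonneg_left h1 h4

end Pool.Agent.L0h37.KC
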