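import Pool.Agent.L0h98.KC.Def
import Pool.Agent.N404.LF.Fact

set_option autoImplicit false

/-!
# Project KC: upper bound for sums over configurations by sums over words
-/

namespace Pool.Agent.L0h37.KC

open Finset Classical
open Pool.Agent.N404.LF (cnt S_FACT proof_FACT)
open Pool.Agent.N404.KL (sg tent)
open Pool.Agent.L0h98.KC

section
variable {X A : Type} [Fintype X] [Fintype A]

lemma cnt_sum (f : X → A) : ∑ a, cnt f a = Fintype.card X := by
  have h := Finset.sum_fiberwise' (univ : Finset X) f (fun _ => (1 : ℕ))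
  simp only [Finset.sum_const, Finset.card_univ, smul_eq_mul, mul_one] at h
  exact h

lemma cnt_le (f : X → A) (a : A) : cnt f a ≤ Fintype.card X := by
  calc cnt f a ≤ (univ : Finset X).card := Finset.card_filter_le _ _
    _ = Fintype.card X := Finset.card_univ

/-- the weight of a value -/
noncomputable def wt (f : X → A) (a : A) : ℝ := (cnt f a : ℝ) / Fintype.card X

/-- the weight of all values -/
noncomputable def Wt (f : X → A) : ℝ := ∏ x, wt f (f x)

lemma wt_nonneg (f : X → A) (a : A) : 0 ≤ wt f a := by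
  unfold wt
  positivity

lemma Wt_pos (f : X → A) : 0 < Wt f := by
  unfold Wt wt
  refine Finset.prod_pos fun x _ => ?_
  have h1 : 0 < cnt f (f x) := Finset.card_pos.2 ⟨x, by simp⟩
  have h2 : (0:ℝ) < cnt f (f x) := by exact_mod_cast h1
  have h3 : (0:ℝ) < Fintype.card X := by exact_mod_cast Fintype.card_pos_iff.2 ⟨x⟩
  positivity

lemma Wt_eq (f : X → A) : Wt f = ∏ a, (wt f a) ^ (cnt f a) := by
  have h := Finset.prod_fiberwise' (univ : Finset X) f (wt f)
  simp only [Finset.prod_const] at h
  exact h.symm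

lemma Wt_eq' (f : X → A) :
    Wt f * (Fintype.card X : ℝ) ^ Fintype.card X = ∏ a, ((cnt f a : ℝ)) ^ (cnt f a) := by
  rw [Wt_eq]
  have e : (Fintype.card X : ℝ) ^ Fintype.card X = ∏ a, (Fintype.card X : ℝ) ^ (cnt f a) := by
    rw [Finset.prod_pow_eq_pow_sum, cnt_sum]
  rw [e, ← Finset.prod_mul_distrib]
  refine Finset.prod_congr rfl fun a _ => ?_
  unfold wt
  rw [← mul_pow]
  rcases Nat.eq_zero_or_pos (Fintype.card X) with h | h
  · have : cnt f a = 0 := by
      have := cnt_le f a
      omega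
    rw [this]
    simp
  · have h3 : (0:ℝ) < Fintype.card X := by exact_mod_cast h
    rw [div_mul_cancel₀ _ h3.ne']

/-- the product of the factorials -/
noncomputable def Fc (f : X → A) : ℝ := ∏ a, ((cnt f a).factorial : ℝ)

lemma Fc_le (hF : S_FACT) (f : X → A) :
    Fc f ≤ (3 * ((Fintype.card X : ℝ) + 1)) ^ (Fintype.card A) *
      ((Fintype.card X).factorial : ℝ) * Wt f := by
  obtain ⟨N, hN⟩ : ∃ N, N = Fintype.card X := ⟨_, rfl⟩
  rw [← hN]
  have h1 : Fc f * Real.exp N ≤ (3 * ((N : ℝ) + 1)) ^ (Fintype.card A) *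
      ∏ a, ((cnt f a : ℝ)) ^ (cnt f a) := by
    have e : Real.exp (N : ℝ) = ∏ a, Real.exp (cnt f a : ℝ) := by
      rw [← Real.exp_sum]
      congr 1
      rw [hN]
      exact_mod_cast (cnt_sum f).symm
    have e2 : (3 * ((N : ℝ) + 1)) ^ (Fintype.card A) = ∏ _a : A, (3 * ((N : ℝ) + 1)) := by
      rw [Finset.prod_const, Finset.card_univ]
    unfold Fc
    rw [e, e2, ← Finset.prod_mul_distrib, ← Finset.prod_mul_distrib]
    refine Finset.prod_le_prod (fun a _ => by positivity) fun a _ => ?_
    refine (hF (cnt f a)).2.trans ?_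
    have h2 : (cnt f a : ℝ) ≤ N := by
      rw [hN]
      exact_mod_cast cnt_le f a
    refine mul_le_mul_of_nonneg_right ?_ (by positivity)
    linarith
  have h2 : (N : ℝ) ^ N ≤ N.factorial * Real.exp N := (hF N).1
  have hW := Wt_pos f
  have h3 : Fc f * Real.exp N ≤
      ((3 * ((N : ℝ) + 1)) ^ (Fintype.card A) * (N.factorial : ℝ) * Wt f) * Real.exp N := by
    refine h1.trans ?_
    rw [← Wt_eq' f, ← hN]
    calc (3 * ((N : ℝ) + 1)) ^ (Fintype.card A) * (Wt f * (N : ℝ) ^ N)
        ≤ (3 * ((N : ℝ) + 1)) ^ (Fintype.card A) * (Wt f * (N.factorial * Real.exp N)) := by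
          refine mul_le_mul_of_nonneg_left ?_ (by positivity)
          exact mul_le_mul_of_nonneg_left h2 hW.le
      _ = _ := by ring
  exact le_of_mul_le_mul_right h3 (Real.exp_pos _)

lemma count_stab [DecidableEq X] (F : X → A)
    [DecidablePred fun g : Equiv.Perm X => ∀ x, F (g x) = F x] :
    (univ.filter fun g : Equiv.Perm X => ∀ x, F (g x) = F x).card =
      ∏ i, (cnt F i).factorial := by
  have h := DomMulAct.stabilizer_card F
  have h1 : (univ.filter fun g : Equiv.Perm X => ∀ x, F (g x) = F x).card =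
      Nat.card {g : Equiv.Perm X // F ∘ g = F} := by
    rw [Nat.card_eq_fintype_card, Fintype.card_subtype]
    congr 1
    ext g
    simp only [mem_filter, mem_univ, true_and]
    exact ⟨fun h => funext h, fun h x => congrFun h x⟩
  rw [h1, Nat.card_eq_fintype_card, h]
  refine Finset.prod_congr rfl fun i _ => ?_
  unfold cnt
  rw [Fintype.card_subtype]

lemma count_match [DecidableEq X] (F F' : X → A)
    (h : ∃ r : Equiv.Perm X, ∀ x, F (r x) = F' x)
    [DecidablePred fun r : Equiv.Perm X => ∀ x, F (r x) = F' x] :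
    (univ.filter fun r : Equiv.Perm X => ∀ x, F (r x) = F' x).card =
      ∏ i, (cnt F i).factorial := by
  obtain ⟨r0, hr0⟩ := h
  rw [← count_stab]
  refine Finset.card_nbij' (fun r => r * r0⁻¹) (fun g => g * r0) ?_ ?_ ?_ ?_
  · intro r hr
    rw [Finset.mem_coe, mem_filter] at hr ⊢
    refine ⟨mem_univ _, fun x => ?_⟩
    rw [Equiv.Perm.mul_apply, hr.2, ← hr0]
    congr 1
    exact r0.apply_symm_apply x
  · intro g hg
    rw [Finset.mem_coe, mem_filter] at hg ⊢
    refine ⟨mem_univ _, fun x => ?_⟩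
    rw [Equiv.Perm.mul_apply, hg.2, hr0]
  · intro r _
    simp
  · intro g _
    simp

lemma fib_card [DecidableEq X] (f f' : X → A)
    [DecidablePred fun r : Equiv.Perm X => ∀ x, f (r x) = f' x] :
    ((univ.filter fun r : Equiv.Perm X => ∀ x, f (r x) = f' x).card : ℝ) ≤ Fc f := by
  by_cases h : ∃ r : Equiv.Perm X, ∀ x, f (r x) = f' x
  · rw [count_match f f' h]
    unfold Fc
    push_cast
    exact le_rfl
  · have : (univ.filter fun r : Equiv.Perm X => ∀ x, f (r x) = f' x) = ∅ := by
      ext r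
      simp only [mem_filter, mem_univ, true_and, notMem_empty, iff_false]
      exact fun hr => h ⟨r, hr⟩
    rw [this]
    unfold Fc
    simp only [card_empty, Nat.cast_zero]
    positivity

end

/-- The number of the permutations which match two words. -/
noncomputable def nm {X A : Type} (F F' : X → A) : ℕ :=
  Nat.card {r : Equiv.Perm X // ∀ x, F (r x) = F' x}

lemma nm_eq {X A : Type} [Fintype X] [DecidableEq X] (F F' : X → A)
    [DecidablePred fun r : Equiv.Perm X => ∀ x, F (r x) = F' x] :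
    nm F F' = (univ.filter fun r : Equiv.Perm X => ∀ x, F (r x) = F' x).card := by
  unfold nm
  rw [Nat.card_eq_fintype_card, Fintype.card_subtype]

/-- The sum over the configurations, grouped by the words. -/
lemma sum_group {S T : Type} [Fintype S] [DecidableEq S] [Fintype T] {X : S → Type}
    [∀ s, Fintype (X s)] [∀ s, DecidableEq (X s)] (f : ∀ s, X s → T) (H : (∀ s, X s → T) → ℝ) :
    ∑ π : Cf X, H (fun s p => f s (π s p)) = ∑ w : ∀ s, X s → T,
      (∏ s, (nm (f s) (w s) : ℝ)) * H w := by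
  have h := Finset.sum_fiberwise' (univ : Finset (Cf X))
    (fun π : Cf X => fun s p => f s (π s p)) H
  rw [← h]
  refine Finset.sum_congr rfl fun w _ => ?_
  rw [Finset.sum_const, nsmul_eq_mul]
  congr 1
  have e : (univ.filter fun π : Cf X => (fun s p => f s (π s p)) = w) =
      Fintype.piFinset fun s => univ.filter fun r : Equiv.Perm (X s) => ∀ x, f s (r x) = w s x := by
    ext π
    rw [Finset.mem_filter, Fintype.mem_piFinset]
    simp only [Finset.mem_univ, true_and, Finset.mem_filter, funext_iff]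
  rw [e, Fintype.card_piFinset]
  push_cast
  refine Finset.prod_congr rfl fun s _ => ?_
  rw [nm_eq]

theorem t_WUP : S_WUP := by
  intro S T _ _ _ X _ _ f Ψ hΨ
  set H : (∀ s, X s → T) → ℝ := fun w => Ψ w * ∏ s, ∏ p, wt (f s) (w s p) with hH
  have hH0 : ∀ w, 0 ≤ H w := fun w => mul_nonneg (hΨ _) (Finset.prod_nonneg fun s _ =>
    Finset.prod_nonneg fun p _ => wt_nonneg _ _)
  have h2 : ∑ π : Cf X, H (fun s p => f s (π s p)) ≤ (∏ s, Fc (f s)) * ∑ w, H w := by
    rw [sum_group, Finset.mul_sum]
    refine Finset.sum_le_sum fun w _ => ?_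
    refine mul_le_mul_of_nonneg_right ?_ (hH0 w)
    refine Finset.prod_le_prod (fun s _ => Nat.cast_nonneg _) fun s _ => ?_
    rw [nm_eq]
    exact fib_card (f s) (w s)
  have h4 : ∀ π : Cf X, H (fun s p => f s (π s p)) =
      Ψ (fun s p => f s (π s p)) * ∏ s, Wt (f s) := by
    intro π
    rw [hH]
    dsimp only
    congr 1
    refine Finset.prod_congr rfl fun s _ => ?_
    unfold Wt
    exact Equiv.prod_comp (π s) fun y => wt (f s) (f s y)
  have hWt : 0 < ∏ s, Wt (f s) := Finset.prod_pos fun s _ => Wt_pos (f s)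
  have hS : 0 ≤ ∑ w, H w := Finset.sum_nonneg fun w _ => hH0 w
  have h5 : ∏ s, Fc (f s) ≤ (∏ s, (((Fintype.card (X s)).factorial : ℝ) *
      (3 * ((Fintype.card (X s) : ℝ) + 1)) ^ Fintype.card T)) * ∏ s, Wt (f s) := by
    rw [← Finset.prod_mul_distrib]
    refine Finset.prod_le_prod (fun s _ => ?_) fun s _ => ?_
    · unfold Fc
      positivity
    · refine (Fc_le proof_FACT (f s)).trans (le_of_eq ?_)
      ring
  simp only [h4] at h2
  rw [← Finset.sum_mul] at h2
  refine le_of_mul_le_mul_right ?_ hWt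
  refine h2.trans ?_
  calc (∏ s, Fc (f s)) * ∑ w, H w
      ≤ ((∏ s, (((Fintype.card (X s)).factorial : ℝ) *
      (3 * ((Fintype.card (X s) : ℝ) + 1)) ^ Fintype.card T)) * ∏ s, Wt (f s)) * ∑ w, H w :=
        mul_le_mul_of_nonneg_right h5 hS
    _ = _ := by
      have : ∑ w, H w = ∑ w : ∀ s, X s → T,
          (∏ s, ∏ p, ((cnt (f s) (w s p) : ℝ) / Fintype.card (X s))) * Ψ w := by
        refine Finset.sum_congr rfl fun w _ => ?_
        rw [hH]
        unfold wt
        rw [mul_comm]
      rw [this]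
      ring

end Pool.Agent.L0h37.KC
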